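import Pool.Agent.H87.AN.TargetsC
import Pool.Agent.H80.AN.TargetsA

/-!
# Row HS0 of the board allh: the Hessian on the points which are regular at a fixed scale

Adapted from Pool/Agent/H66/D3/HS0.lean (helper66).
-/

set_option autoImplicit false

namespace Pool.Agent.H21.AN

open MeasureTheory Metric Set Filter Topology Pool.Agent.H87.SN Pool.Agent.H87.SH Pool.Agent.H87.AX
  Pool.Agent.H22.AN
open scoped ENNReal

theorem pf_HS0 (hHLC : T_HLC) : T_HS0 := by
  intro d m L Λ ε e j hd hL hΛ he hEP hj
  obtain ⟨C, hC, hC2⟩ := hHLC d m L Λ ε e hL hEP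
  set s : ℝ := sj j with hs
  have hs0 : 0 < s := by
    rw [hs]
    unfold sj
    positivity
  have hs1 : s ≤ 1 / 16 := by
    rw [hs]
    unfold sj
    calc ((1 : ℝ) / 2) ^ j ≤ (1 / 2) ^ 4 :=
          pow_le_pow_of_le_one (by norm_num) (by norm_num) hj
      _ = 1 / 16 := by norm_num
  obtain ⟨t, -, ht, htc⟩ := (isCompact_closedBall (0 : V d) 1).finite_cover_balls
    (show (0 : ℝ) < s / 64 by positivity)
  have : Fintype t := ht.fintype
  refine ⟨Fintype.card t * (C * s ^ d * Real.sqrt Λ), by positivity, ?_⟩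
  intro U u G hSM
  set S : Set (V d) := {x | x ∈ ball 0 1 ∧ th G x s < e / 2 ^ d} with hS
  have hsub : S ⊆ ⋃ i : t, (S ∩ ball i.1 (s / 64)) := by
    intro x hx
    have h1 : x ∈ closedBall (0 : V d) 1 := ball_subset_closedBall hx.1
    obtain ⟨i, hi, hxi⟩ := mem_iUnion₂.1 (htc h1)
    exact mem_iUnion.2 ⟨⟨i, hi⟩, hx, hxi⟩
  have hone : ∀ i : t, hInt u (S ∩ ball i.1 (s / 64)) ≤
      ENNReal.ofReal (C * s ^ d * Real.sqrt Λ) := by
    intro i
    by_cases hne : (S ∩ ball i.1 (s / 64)).Nonempty
    · obtain ⟨x, hx, hxi⟩ := hne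
      have hxb : ‖x‖ < 1 := by
        have := hx.1
        rwa [mem_ball_zero_iff] at this
      have hb : ball x s ⊆ ball 0 2 := by
        intro y hy
        rw [mem_ball_zero_iff]
        rw [mem_ball, dist_eq_norm] at hy
        calc ‖y‖ = ‖(y - x) + x‖ := by rw [sub_add_cancel]
          _ ≤ ‖y - x‖ + ‖x‖ := norm_add_le _ _
          _ < 2 := by linarith
      have hth : th G x s < 2 * e := by
        have h1 : e / 2 ^ d ≤ e := div_le_self he.le (one_le_pow₀ (by norm_num))
        have := hx.2
        linarith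
      obtain ⟨-, h2⟩ := hC2 U u G hSM x s hs0 hb hth
      have h3 : S ∩ ball i.1 (s / 64) ⊆ ball x (s / 32) := by
        rintro y ⟨-, hy⟩
        rw [mem_ball] at hxi hy ⊢
        calc dist y x ≤ dist y i.1 + dist i.1 x := dist_triangle _ _ _
          _ = dist y i.1 + dist x i.1 := by rw [dist_comm i.1 x]
          _ < s / 32 := by linarith
      have h4 : hInt u (S ∩ ball i.1 (s / 64)) ≤ hInt u (ball x (s / 32)) := by
        unfold hInt
        exact lintegral_mono_set h3
      have h5 : th G x (s / 16) ≤ Λ := by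
        unfold th
        rw [div_le_iff₀ (by positivity)]
        apply hSM.gd.den x (s / 16) (by positivity)
        exact (ball_subset_ball (by linarith)).trans hb
      refine h4.trans (h2.trans (ENNReal.ofReal_le_ofReal ?_))
      apply mul_le_mul_of_nonneg_left (Real.sqrt_le_sqrt h5)
      positivity
    · rw [not_nonempty_iff_eq_empty] at hne
      rw [hne]
      unfold hInt
      rw [Measure.restrict_empty, lintegral_zero_measure]
      exact bot_le
  calc hInt u S ≤ hInt u (⋃ i : t, (S ∩ ball i.1 (s / 64))) := by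
        unfold hInt
        exact lintegral_mono_set hsub
    _ ≤ ∑' i : t, hInt u (S ∩ ball i.1 (s / 64)) := by
        unfold hInt
        exact lintegral_iUnion_le _ _
    _ = ∑ i : t, hInt u (S ∩ ball i.1 (s / 64)) := tsum_fintype _
    _ ≤ ∑ _i : t, ENNReal.ofReal (C * s ^ d * Real.sqrt Λ) := Finset.sum_le_sum fun i _ => hone i
    _ = ENNReal.ofReal (Fintype.card t * (C * s ^ d * Real.sqrt Λ)) := by
        rw [Finset.sum_const, Finset.card_univ, nsmul_eq_mul,
          ENNReal.ofReal_mul (Nat.cast_nonneg _), ENNReal.ofReal_natCast]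

end Pool.Agent.H21.AN
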