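import Pool.Agent.H87.AN.TargetsC
import Pool.Agent.H80.AN.TargetsA

/-! Row SUM of the board allh (MP_2697e3_an): the sum over all cells is bounded.
Twin of Pool/Agent/H87/D3/SUM.lean (helper87). -/

namespace Pool.Agent.H21.AN

open MeasureTheory Metric Set Filter Topology Pool.Agent.H22.AN
open scoped ENNReal

theorem pf_SUM (hREC : T_REC) (hHST : T_HST) (hHTR : T_HTR) (hSQ3 : T_SQ3) (hPKW : T_PKW) :
    T_SUM := by
  intro d m L Λ ε er hd hL hΛ hε her hEP
  set e : ℝ := er / 2 ^ d with he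
  set e₀ : ℝ := er / 4 ^ d with he₀
  have he0 : 0 < e := by positivity
  have he₀0 : 0 < e₀ := by positivity
  have h2d : e ≤ er := div_le_self her.le (one_le_pow₀ (by norm_num))
  have h24 : e₀ ≤ e := by
    rw [he, he₀]
    apply div_le_div_of_nonneg_left her.le (by positivity)
    exact pow_le_pow_left₀ (by norm_num) (by norm_num) d
  obtain ⟨C, hC, hst⟩ := hHST d Λ e hd he0
  set η : ℝ := 1 / (8 * (C + 1)) with hη
  have hη0 : 0 < η := by positivity
  have hCη : C * η ≤ 1 / 8 := by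
    rw [hη, ← mul_div_assoc, mul_one, div_le_div_iff₀ (by positivity) (by norm_num)]
    linarith
  obtain ⟨a, b, r, K, ν, ha, hab, hr, hν, hrec⟩ := hREC d m L Λ ε er e e₀ η hd hL hΛ hε her hEP
    he0 (by linarith) he₀0 hη0
  obtain ⟨B0, hB0, hhtr⟩ := hHTR d Λ e hd he0
  obtain ⟨P, hP, hpk⟩ := hPKW d Λ ν K hd hΛ.le hν
  refine ⟨η, ν, 2 * (C * 4 ^ r * P) + 2 * (a + b + r + 1) * (B0 + C * η), a, b, r, K, hη0.le, hν,
    by positivity, ha, hab, hr, ?_⟩
  intro U u G hSM
  have hR := hrec U u G hSM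
  refine ⟨hR, ?_⟩
  refine hSQ3 (fun j => Hj G e j) (fun j => ENNReal.ofReal (C * 4 ^ r) * bad G K ν j) a b r
    (B0 + C * η) (C * 4 ^ r * P) (by positivity) (by positivity) (by omega) hab (by omega) ?_ ?_ ?_
  · intro i hi
    exact ((hhtr m G hSM.gd i hi).2).trans
      (ENNReal.ofReal_le_ofReal (by nlinarith [mul_nonneg hC hη0.le]))
  · intro J
    rw [← Finset.mul_sum, ENNReal.ofReal_mul (p := C * 4 ^ r) (q := P) (by positivity)]
    gcongr
    exact hpk m G hSM.gd J
  · intro j hj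
    have h1 := hst m G hSM.gd er e₀ η ν a b r K h24 hη0.le ha hr hR j hj
    refine h1.trans ?_
    gcongr
    linarith

end Pool.Agent.H21.AN
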